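import Pool.Agent.L7h88.TS.Stm

/-! Project TS (helper88), part AC: the autocorrelation bound, by the discrete Parseval identity. -/

set_option autoImplicit false

namespace Pool.Agent.L7h28.TS

open Finset
open Pool.Agent.L7h88.TS
open Pool.Agent.H807R2.Dav

/-- orthogonality -/
lemma orth (Q : ℕ) (hQ : 0 < Q) (j : ℤ) :
    ∑ k ∈ range Q, ee ((j : ℝ) * ((k : ℝ) / Q)) = if (Q : ℤ) ∣ j then (Q : ℂ) else 0 := by
  have hQ0 : (Q : ℝ) ≠ 0 := by
    have : (0 : ℝ) < Q := by exact_mod_cast hQ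
    exact this.ne'
  have h1 : ∀ k : ℕ, ee ((j : ℝ) * ((k : ℝ) / Q)) = ee ((j : ℝ) / Q) ^ k := by
    intro k
    rw [← ee_pow]
    congr 1
    ring
  simp only [h1]
  by_cases h : (Q : ℤ) ∣ j
  · rw [if_pos h]
    obtain ⟨t, rfl⟩ := h
    have h2 : ee ((((Q : ℤ) * t : ℤ) : ℝ) / Q) = 1 := by
      have : (((Q : ℤ) * t : ℤ) : ℝ) / Q = (t : ℝ) := by
        push_cast
        field_simp
      rw [this, ee_int]
    rw [h2]
    simp
  · rw [if_neg h]
    have h3 : ee ((j : ℝ) / Q) ≠ 1 := by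
      intro h4
      apply h
      rw [ee_eq, Complex.exp_eq_one_iff] at h4
      obtain ⟨n, hn⟩ := h4
      have h5 : (2 * Real.pi * ((j : ℝ) / Q) : ℝ) = n * (2 * Real.pi) := by
        have h6 : (((2 * Real.pi * ((j : ℝ) / Q) : ℝ) : ℂ)) * Complex.I = ((n * (2 * Real.pi) : ℝ) : ℂ) * Complex.I := by
          rw [hn]
          push_cast
          ring
        have h7 := mul_right_cancel₀ Complex.I_ne_zero h6
        exact_mod_cast h7
      have h8 : (j : ℝ) / Q = n := by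
        have hpi := Real.pi_pos
        have : 2 * Real.pi * ((j : ℝ) / Q - n) = 0 := by linarith
        rcases mul_eq_zero.1 this with h9 | h9
        · exact absurd h9 (by positivity)
        · linarith
      rw [div_eq_iff hQ0] at h8
      refine ⟨n, ?_⟩
      have : (j : ℝ) = (((Q : ℤ) * n : ℤ) : ℝ) := by
        push_cast
        linarith
      exact_mod_cast this
    have h9 := geom_sum_eq h3 Q
    rw [h9]
    have h10 : ee ((j : ℝ) / Q) ^ Q = 1 := by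
      rw [← ee_pow]
      have : (Q : ℝ) * ((j : ℝ) / Q) = (j : ℝ) := by field_simp
      rw [this, ee_int]
    rw [h10]
    simp

lemma ee_conj (x : ℝ) : (starRingEnd ℂ) (ee x) = ee (-x) := by
  rw [ee_eq, ee_eq, ← Complex.exp_conj]
  congr 1
  rw [map_mul, Complex.conj_I, Complex.conj_ofReal]
  push_cast
  ring

/-- the discrete Parseval identity -/
lemma dparseval (Q : ℕ) (hQ : 0 < Q) (S : Finset ℤ) (c : ℤ → ℂ)
    (hS : ∀ a ∈ S, ∀ b ∈ S, (Q : ℤ) ∣ a - b → a = b) :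
    ∑ k ∈ range Q, ‖∑ h ∈ S, c h * ee ((h : ℝ) * ((k : ℝ) / Q))‖ ^ 2 = Q * ∑ h ∈ S, ‖c h‖ ^ 2 := by
  have h1 : ((∑ k ∈ range Q, ‖∑ h ∈ S, c h * ee ((h : ℝ) * ((k : ℝ) / Q))‖ ^ 2 : ℝ) : ℂ) =
      ((Q * ∑ h ∈ S, ‖c h‖ ^ 2 : ℝ) : ℂ) := by
    push_cast
    have h2 : ∀ k ∈ range Q, ((‖∑ h ∈ S, c h * ee ((h : ℝ) * ((k : ℝ) / Q))‖ : ℝ) : ℂ) ^ 2 =
        ∑ a ∈ S, ∑ b ∈ S, c a * (starRingEnd ℂ) (c b) * ee (((a - b : ℤ) : ℝ) * ((k : ℝ) / Q)) := by
      intro k _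
      rw [← Complex.mul_conj', map_sum, sum_mul_sum]
      refine sum_congr rfl fun a _ => sum_congr rfl fun b _ => ?_
      rw [map_mul, ee_conj]
      have h3 : ee (((a - b : ℤ) : ℝ) * ((k : ℝ) / Q)) = ee ((a : ℝ) * ((k : ℝ) / Q)) * ee (-((b : ℝ) * ((k : ℝ) / Q))) := by
        rw [← ee_add]
        congr 1
        push_cast
        ring
      rw [h3]
      ring
    rw [sum_congr rfl h2, sum_comm]
    rw [mul_sum]
    refine sum_congr rfl fun a ha => ?_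
    rw [sum_comm]
    have h4 : ∀ b ∈ S, ∑ k ∈ range Q, c a * (starRingEnd ℂ) (c b) * ee (((a - b : ℤ) : ℝ) * ((k : ℝ) / Q)) =
        if b = a then (Q : ℂ) * ((‖c a‖ : ℝ) : ℂ) ^ 2 else 0 := by
      intro b hb
      rw [← mul_sum, orth Q hQ]
      by_cases hab : b = a
      · subst hab
        rw [if_pos (by simp), if_pos rfl, Complex.mul_conj']
        ring
      · rw [if_neg hab, if_neg, mul_zero]
        intro h5
        exact hab (hS a ha b hb h5).symm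
    rw [sum_congr rfl h4, sum_ite_eq' S a, if_pos ha]
  exact_mod_cast h1

theorem s_AC : S_AC := by
  intro X G M hG hM
  obtain ⟨Q, hQ⟩ : ∃ Q : ℕ, Q = 2 * X + 1 := ⟨_, rfl⟩
  have hQ0 : 0 < Q := by omega
  obtain ⟨A, hA⟩ : ∃ A : ℤ → ℝ, ∀ h, A h = ∑ m ∈ Icc (1 : ℤ) X, G m * G (m + h) := ⟨_, fun _ => rfl⟩
  simp only [← hA]
  have hM0 : 0 ≤ M := (norm_nonneg _).trans (hM 0)
  -- the square of the sum
  have hsq : ∀ α : ℝ, ∑ h ∈ Icc (-(X : ℤ)) X, ((A h : ℝ) : ℂ) * ee ((h : ℝ) * α) =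
      ((‖∑ m ∈ Icc (1 : ℤ) X, ((G m : ℝ) : ℂ) * ee ((m : ℝ) * α)‖ ^ 2 : ℝ) : ℂ) := by
    intro α
    rw [Complex.ofReal_pow, ← Complex.conj_mul', map_sum, sum_mul_sum]
    have h1 : ∀ m ∈ Icc (1 : ℤ) X, ∑ h ∈ Icc (-(X : ℤ)) X, ((G m * G (m + h) : ℝ) : ℂ) * ee ((h : ℝ) * α) =
        ∑ m' ∈ Icc (1 : ℤ) X, (starRingEnd ℂ) (((G m : ℝ) : ℂ) * ee ((m : ℝ) * α)) *
          (((G m' : ℝ) : ℂ) * ee ((m' : ℝ) * α)) := by
      intro m hm
      rw [mem_Icc] at hm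
      have h2 : ∑ h ∈ Icc (-(X : ℤ)) X, ((G m * G (m + h) : ℝ) : ℂ) * ee ((h : ℝ) * α) =
          ∑ h ∈ (Icc (1 : ℤ) X).image (fun m' => m' - m), ((G m * G (m + h) : ℝ) : ℂ) * ee ((h : ℝ) * α) := by
        symm
        apply sum_subset
        · intro h hh
          rw [mem_image] at hh
          obtain ⟨m', hm', rfl⟩ := hh
          rw [mem_Icc] at hm' ⊢
          constructor <;> omega
        · intro h _ hh
          rw [hG (m + h), mul_zero, Complex.ofReal_zero, zero_mul]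
          intro h3
          apply hh
          rw [mem_image]
          exact ⟨m + h, h3, by ring⟩
      rw [h2, sum_image (fun a _ b _ hab => by simpa using hab)]
      refine sum_congr rfl fun m' _ => ?_
      rw [map_mul, ee_conj, Complex.conj_ofReal]
      have h3 : ee (((m' - m : ℤ) : ℝ) * α) = ee (-((m : ℝ) * α)) * ee ((m' : ℝ) * α) := by
        rw [← ee_add]
        congr 1
        push_cast
        ring
      rw [h3]
      have h4 : m + (m' - m) = m' := by ring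
      rw [h4]
      push_cast
      ring
    rw [← sum_congr rfl h1, sum_comm]
    refine sum_congr rfl fun h _ => ?_
    rw [hA]
    push_cast
    rw [sum_mul]
  have hp1 := dparseval Q hQ0 (Icc (-(X : ℤ)) X) (fun h => ((A h : ℝ) : ℂ)) (by
    intro a ha b hb hab
    rw [mem_Icc] at ha hb
    have h1 := Int.eq_zero_of_abs_lt_dvd hab (by rw [abs_lt]; constructor <;> omega)
    omega)
  have hp2 := dparseval Q hQ0 (Icc (1 : ℤ) X) (fun m => ((G m : ℝ) : ℂ)) (by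
    intro a ha b hb hab
    rw [mem_Icc] at ha hb
    have h1 := Int.eq_zero_of_abs_lt_dvd hab (by rw [abs_lt]; constructor <;> omega)
    omega)
  have hQR : (0 : ℝ) < Q := by exact_mod_cast hQ0
  simp only [Complex.norm_real, Real.norm_eq_abs, sq_abs] at hp1 hp2
  have h1 : (Q : ℝ) * ∑ h ∈ Icc (-(X : ℤ)) X, A h ^ 2 ≤ M ^ 2 * ((Q : ℝ) * ∑ m ∈ Icc (1 : ℤ) X, G m ^ 2) := by
    rw [← hp1, ← hp2, mul_sum]
    refine sum_le_sum fun k _ => ?_
    rw [hsq, Complex.norm_real, Real.norm_eq_abs, abs_of_nonneg (by positivity)]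
    rw [sq (‖∑ m ∈ Icc (1 : ℤ) X, ((G m : ℝ) : ℂ) * ee ((m : ℝ) * (k / Q))‖ ^ 2)]
    apply mul_le_mul_of_nonneg_right _ (by positivity)
    exact pow_le_pow_left₀ (norm_nonneg _) (hM _) 2
  have h2 : (Q : ℝ) * ∑ h ∈ Icc (-(X : ℤ)) X, A h ^ 2 ≤ (Q : ℝ) * (M ^ 2 * ∑ m ∈ Icc (1 : ℤ) X, G m ^ 2) := by
    calc _ ≤ _ := h1
      _ = _ := by ring
  exact le_of_mul_le_mul_left h2 hQR

end Pool.Agent.L7h28.TS
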