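import Pool.Agent.L7h28.TS.Kap

/-! Project TS (helper88), part COR: correlations of the model. -/

set_option autoImplicit false

namespace Pool.Agent.L7h28.TS

open Finset
open Pool.Agent.L7h88.TS hiding lp
open Pool.Agent.H373R2.T7

/-- the sieving conditions -/
def Qh (h l m : ℕ) : Prop := l ∣ m ∨ l ∣ m + h

lemma mod_dvd (l m h : ℕ) : l ∣ m + h ↔ l ∣ m % l + h := by
  rw [Nat.dvd_iff_mod_eq_zero, Nat.dvd_iff_mod_eq_zero, Nat.mod_add_mod]

lemma mod_dvd' (l m : ℕ) : l ∣ m ↔ l ∣ m % l := by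
  rw [Nat.dvd_iff_mod_eq_zero, Nat.dvd_iff_mod_eq_zero, Nat.mod_mod]

lemma nuB_eq (h p : ℕ) : nuB (Qh h) p = ((range p).filter (fun r => p ∣ r ∨ p ∣ r + h)).card := by
  unfold nuB
  apply congrArg
  ext r
  constructor
  · intro hr
    have h1 := (@Finset.mem_filter _ (fun r => Qh h p r) (_) _ _).1 hr
    exact mem_filter.2 h1
  · intro hr
    have h1 := mem_filter.1 hr
    exact (@Finset.mem_filter _ (fun r => Qh h p r) (_) _ _).2 h1

lemma nu_eq (h p : ℕ) (hp : p.Prime) : nuB (Qh h) p = if p ∣ h then 1 else 2 := by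
  rw [nuB_eq]
  have hp1 := hp.two_le
  split_ifs with hd
  · have h1 : (range p).filter (fun r => p ∣ r ∨ p ∣ r + h) = {0} := by
      ext r
      rw [mem_filter, mem_range, mem_singleton]
      constructor
      · rintro ⟨h1, h2⟩
        have h3 : p ∣ r := by
          rcases h2 with h2 | h2
          · exact h2
          · exact (Nat.dvd_add_left hd).1 h2
        exact Nat.eq_zero_of_dvd_of_lt h3 h1
      · rintro rfl
        exact ⟨by omega, Or.inl (dvd_zero _)⟩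
    rw [h1, card_singleton]
  · have hm : h % p ≠ 0 := fun h0 => hd (Nat.dvd_of_mod_eq_zero h0)
    have hm2 := Nat.mod_lt h hp.pos
    have h1 : (range p).filter (fun r => p ∣ r ∨ p ∣ r + h) = {0, p - h % p} := by
      ext r
      rw [mem_filter, mem_range, mem_insert, mem_singleton]
      constructor
      · rintro ⟨h1, h2⟩
        rcases h2 with h2 | h2
        · exact Or.inl (Nat.eq_zero_of_dvd_of_lt h2 h1)
        · right
          have h3 : p ∣ r + h % p := by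
            rw [Nat.dvd_iff_mod_eq_zero] at h2 ⊢
            rwa [Nat.add_mod_mod]
          obtain ⟨c, hc⟩ := h3
          have hc1 : c = 1 := by
            rcases Nat.lt_or_ge c 2 with h4 | h4
            · interval_cases c
              · omega
              · rfl
            · have : p * 2 ≤ p * c := Nat.mul_le_mul_left _ h4
              omega
          subst hc1
          omega
      · rintro (rfl | rfl)
        · exact ⟨by omega, Or.inl (dvd_zero _)⟩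
        · refine ⟨by omega, Or.inr ?_⟩
          rw [Nat.dvd_iff_mod_eq_zero, ← Nat.add_mod_mod]
          have : p - h % p + h % p = p := by omega
          rw [this, Nat.mod_self]
    rw [h1]
    exact card_pair (by omega)

lemma Qh_per (h : ℕ) : PerB (Qh h) 2 := by
  constructor
  · intro p n
    unfold Qh
    rw [← mod_dvd', ← mod_dvd]
  · intro p hp
    rw [nu_eq h p hp]
    split_ifs <;> norm_num

/-- `kap` as an arithmetic function -/
noncomputable def kapf : ArithmeticFunction ℝ :=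
  ⟨fun e => if e = 0 then 0 else kap e, by simp⟩

lemma kapf_apply (e : ℕ) (he : e ≠ 0) : kapf e = kap e := by
  show (if e = 0 then (0 : ℝ) else kap e) = _
  rw [if_neg he]

lemma kapf_mult : kapf.IsMultiplicative := by
  rw [ArithmeticFunction.IsMultiplicative.iff_ne_zero]
  constructor
  · rw [kapf_apply 1 one_ne_zero]
    simp [kap]
  · intro m n hm hn hmn
    rw [kapf_apply _ (mul_ne_zero hm hn), kapf_apply m hm, kapf_apply n hn]
    unfold kap
    rw [Nat.Coprime.primeFactors_mul hmn, prod_union hmn.disjoint_primeFactors]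

lemma sqf (S : Finset ℕ) (hS : ∀ p ∈ S, p.Prime) : Squarefree (∏ l ∈ S, l) := by
  refine Finset.squarefree_prod_of_pairwise_isCoprime (fun p hp q hq hpq => ?_) (fun p hp => (hS p hp).prime.squarefree)
  exact Nat.coprime_iff_isRelPrime.1 ((Nat.coprime_primes (hS p hp) (hS q hq)).2 hpq)

/-- the divisors of `h` in `Ez z` -/
lemma Ez_filter (z h : ℕ) : (Ez z).filter (fun e => e ∣ h) =
    (∏ l ∈ ((pz z).erase 2).filter (fun l => l ∣ h), l).divisors := by
  have hS : ∀ p ∈ (pz z).erase 2, p.Prime := fun p hp => (mem_odd hp).1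
  have hS' : ∀ p ∈ ((pz z).erase 2).filter (fun l => l ∣ h), p.Prime := fun p hp => hS p (mem_filter.1 hp).1
  ext e
  unfold Ez
  rw [mem_filter, Nat.mem_divisors, Nat.mem_divisors]
  constructor
  · rintro ⟨⟨h1, h2⟩, h3⟩
    refine ⟨?_, (sqf _ hS').ne_zero⟩
    have h4 : Squarefree e := (sqf _ hS).squarefree_of_dvd h1
    rw [← Nat.prod_primeFactors_of_squarefree h4]
    apply prod_dvd_prod_of_subset
    intro l hl
    have h5 := Nat.primeFactors_mono h1 h2 hl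
    rw [Nat.primeFactors_prod hS] at h5
    rw [mem_filter]
    exact ⟨h5, (Nat.dvd_of_mem_primeFactors hl).trans h3⟩
  · rintro ⟨h1, _⟩
    refine ⟨⟨h1.trans (prod_dvd_prod_of_subset _ _ _ (filter_subset _ _)), (sqf _ hS).ne_zero⟩, h1.trans ?_⟩
    apply Finset.prod_primes_dvd
    · intro p hp
      exact (hS' p hp).prime
    · intro p hp
      exact (mem_filter.1 hp).2

lemma prod_eq (z h : ℕ) (hz : 2 ≤ z) (hh : 2 ∣ h) :
    ∏ p ∈ pz z, (1 - (nuB (Qh h) p : ℝ) / p) =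
      (1 / 2) * (∏ l ∈ (pz z).erase 2, (1 - 2 / (l : ℝ))) * ∑ e ∈ (Ez z).filter (fun e => e ∣ h), kap e := by
  have h2 : 2 ∈ pz z := mem_pz.2 ⟨hz, Nat.prime_two⟩
  have hS' : ∀ p ∈ ((pz z).erase 2).filter (fun l => l ∣ h), p.Prime := fun p hp => (mem_odd (mem_filter.1 hp).1).1
  rw [← mul_prod_erase _ _ h2, nu_eq h 2 Nat.prime_two, if_pos hh]
  have h3 : ∀ l ∈ (pz z).erase 2, 1 - (nuB (Qh h) l : ℝ) / l = (1 - 2 / (l : ℝ)) * (if l ∣ h then 1 + 1 / ((l : ℝ) - 2) else 1) := by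
    intro l hl
    obtain ⟨hlp, hl3⟩ := mem_odd hl
    have h4 : (3 : ℝ) ≤ l := by exact_mod_cast hl3
    have h5 : (l : ℝ) - 2 ≠ 0 := by
      have : (0 : ℝ) < (l : ℝ) - 2 := by linarith
      exact this.ne'
    have h6 : (l : ℝ) ≠ 0 := by
      have : (0 : ℝ) < (l : ℝ) := by linarith
      exact this.ne'
    rw [nu_eq h l hlp]
    split_ifs with hd
    · push_cast
      field_simp
      ring
    · push_cast
      ring
  rw [prod_congr rfl h3, prod_mul_distrib]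
  have h7 : ∏ l ∈ (pz z).erase 2, (if l ∣ h then 1 + 1 / ((l : ℝ) - 2) else 1) =
      ∑ e ∈ (Ez z).filter (fun e => e ∣ h), kap e := by
    rw [← prod_filter, Ez_filter]
    have h8 := kapf_mult.prodPrimeFactors_one_add_of_squarefree (sqf _ hS')
    rw [Nat.primeFactors_prod hS'] at h8
    have h9 : ∏ l ∈ ((pz z).erase 2).filter (fun l => l ∣ h), (1 + 1 / ((l : ℝ) - 2)) =
        ∏ l ∈ ((pz z).erase 2).filter (fun l => l ∣ h), (1 + kapf l) := by
      refine prod_congr rfl fun l hl => ?_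
      rw [kapf_apply l (hS' l hl).ne_zero]
      unfold kap
      rw [(hS' l hl).primeFactors, prod_singleton]
    rw [h9, h8]
    refine sum_congr rfl fun e he => ?_
    exact kapf_apply e (Nat.pos_of_mem_divisors he).ne'
  rw [h7]
  push_cast
  ring

open Classical in
/-- the count -/
lemma sum_count (z h a b : ℕ) (hab : a ≤ b) : ∑ m ∈ Ioc a b, lamz z m * lamz z (m + h) =
    (Vz z)⁻¹ ^ 2 * (((((Icc 1 b).filter (fun n : ℕ => ∀ p ∈ pz z, ¬ Qh h p n)).card : ℕ) : ℝ) -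
      ((((Icc 1 a).filter (fun n : ℕ => ∀ p ∈ pz z, ¬ Qh h p n)).card : ℕ) : ℝ)) := by
  have h1 : ∀ m, lamz z m * lamz z (m + h) = (Vz z)⁻¹ ^ 2 * (if ∀ p ∈ pz z, ¬ Qh h p m then 1 else 0) := by
    intro m
    unfold lamz Qh
    by_cases h1 : ∀ p ∈ pz z, ¬ p ∣ m
    · by_cases h2 : ∀ p ∈ pz z, ¬ p ∣ m + h
      · rw [if_pos h1, if_pos h2, if_pos (fun p hp => not_or.2 ⟨h1 p hp, h2 p hp⟩)]
        ring
      · rw [if_neg h2, if_neg (fun h3 : ∀ p ∈ pz z, ¬ (p ∣ m ∨ p ∣ m + h) => h2 fun p hp => (not_or.1 (h3 p hp)).2)]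
        ring
    · rw [if_neg h1, if_neg (fun h3 : ∀ p ∈ pz z, ¬ (p ∣ m ∨ p ∣ m + h) => h1 fun p hp => (not_or.1 (h3 p hp)).1)]
      ring
  rw [sum_congr rfl fun m _ => h1 m, ← mul_sum]
  congr 1
  have h2 : ∀ N : ℕ, ((((Icc 1 N).filter (fun n : ℕ => ∀ p ∈ pz z, ¬ Qh h p n)).card : ℕ) : ℝ) =
      ∑ m ∈ Icc 1 N, (if ∀ p ∈ pz z, ¬ Qh h p m then (1 : ℝ) else 0) := by
    intro N
    rw [← sum_filter, sum_const, nsmul_eq_mul, mul_one]
  rw [h2, h2, eq_sub_iff_add_eq, add_comm]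
  have h3 : Icc 1 b = Icc 1 a ∪ Ioc a b := by
    ext m
    simp only [mem_union, mem_Icc, mem_Ioc]
    omega
  rw [h3, sum_union]
  rw [disjoint_left]
  intro m hm hm2
  rw [mem_Icc] at hm
  rw [mem_Ioc] at hm2
  omega

lemma shift_sum (X z u u' h : ℕ) (hu : u % 2 = 1) (hu' : u' % 2 = 1) (hu8 : u ≤ X / 8) (hh : u = u' + 2 * h) :
    ∑ n ∈ (Ioc (X / 2) X).filter (fun n => n % 2 = 1), ev (lamz z) (n - u) * ev (lamz z) (n - u') =
      ∑ m ∈ Ioc ((X / 2 - u) / 2) ((X - u) / 2), lamz z m * lamz z (m + h) := by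
  symm
  refine sum_nbij' (fun m => 2 * m + u) (fun n => (n - u) / 2) ?_ ?_ ?_ ?_ ?_
  · intro m hm
    rw [mem_Ioc] at hm
    rw [mem_filter, mem_Ioc]
    omega
  · intro n hn
    rw [mem_filter, mem_Ioc] at hn
    rw [mem_Ioc]
    omega
  · intro m hm
    omega
  · intro n hn
    rw [mem_filter, mem_Ioc] at hn
    omega
  · intro m hm
    unfold ev
    have e1 : 2 * m + u - u = 2 * m := by omega
    have e2 : 2 * m + u - u' = 2 * (m + h) := by omega
    rw [e1, e2, if_pos (even_two_mul _), if_pos (even_two_mul _), Nat.mul_div_cancel_left _ (by norm_num),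
      Nat.mul_div_cancel_left _ (by norm_num)]

open Classical in
/-- the case `u' < u` -/
lemma cor_lt (U E : ℕ) : ∃ X₀ : ℕ, ∀ X z u u' : ℕ, X₀ ≤ X → 2 ≤ z → (z : ℝ) ≤ Real.log X ^ E →
    u % 2 = 1 → u' % 2 = 1 → u ≤ X / 8 → u' ≤ X / 8 → u' < u → (4 : ℤ) ∣ (u : ℤ) - u' →
    |∑ n ∈ (Ioc (X / 2) X).filter (fun n => n % 2 = 1), ev (lamz z) (n - u) * ev (lamz z) (n - u') -
      X / 4 * Cz z * ∑ e ∈ (Ez z).filter (fun e : ℕ => (e : ℤ) ∣ (u : ℤ) - u'), kap e| ≤ X / Real.log X ^ U := by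
  obtain ⟨N0, hN0⟩ := sys_count 2 (2 * E) (U + 3) (by norm_num)
  obtain ⟨N1, hN1⟩ := Vz_inv_small E
  obtain ⟨m1, h1⟩ := ev_L' (2 ^ (U + 5) + 4)
  obtain ⟨m2, h2⟩ := ev_log' (U + 2) 4
  obtain ⟨m3, h3⟩ := ev_log' 1 8
  refine ⟨16 * (N0 + 16) + N1 + m1 + m2 + m3, fun X z u u' hX hz hzE hu hu' hu8 hu8' hlt h4 => ?_⟩
  have k1 := h1 X (by omega)
  have k2 := h2 X (by omega)
  have k3 := h3 X (by omega)
  have kV := hN1 X (by omega) z (by omega) hzE
  obtain ⟨h, hh, hh2⟩ : ∃ h : ℕ, u = u' + 2 * h ∧ 2 ∣ h := by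
    obtain ⟨c, hc⟩ := h4
    refine ⟨(2 * c).toNat, by omega, ?_⟩
    have : (2 * c).toNat = 2 * c.toNat := by omega
    rw [this]
    exact dvd_mul_right _ _
  obtain ⟨a, ha⟩ : ∃ a : ℕ, a = (X / 2 - u) / 2 := ⟨_, rfl⟩
  obtain ⟨b, hb⟩ : ∃ b : ℕ, b = (X - u) / 2 := ⟨_, rfl⟩
  have hab : a ≤ b := by omega
  have hXr : (256 : ℝ) ≤ X := by exact_mod_cast (by omega : 256 ≤ X)
  have hX0 : (0 : ℝ) < X := by linarith
  obtain ⟨L, hL⟩ : ∃ L : ℝ, L = Real.log X := ⟨_, rfl⟩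
  rw [← hL] at k1 k2 k3 kV hzE ⊢
  have hU5 : (0 : ℝ) < 2 ^ (U + 5) := by positivity
  have hL4 : 4 ≤ L := by linarith
  have hL0 : 0 < L := by linarith
  -- the sum
  rw [shift_sum X z u u' h hu hu' hu8 hh, ← ha, ← hb, sum_count z h a b hab]
  have hfil : (Ez z).filter (fun e : ℕ => (e : ℤ) ∣ (u : ℤ) - u') = (Ez z).filter (fun e => e ∣ h) := by
    apply filter_congr
    intro e he
    have h5 : (u : ℤ) - u' = ((2 * h : ℕ) : ℤ) := by
      rw [hh]
      push_cast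
      ring
    rw [h5, Int.natCast_dvd_natCast]
    have h6 : e.Coprime 2 := by
      unfold Ez at he
      have h7 := Nat.dvd_of_mem_divisors he
      apply Nat.Coprime.coprime_dvd_left h7
      refine Nat.Coprime.prod_left fun l hl => ?_
      obtain ⟨hlp, hl3⟩ := mem_odd hl
      exact (Nat.coprime_primes hlp Nat.prime_two).2 (by omega)
    exact h6.dvd_mul_left
  rw [hfil]
  obtain ⟨ϖ, hϖ⟩ : ∃ ϖ : ℝ, ϖ = ∏ p ∈ pz z, (1 - (nuB (Qh h) p : ℝ) / p) := ⟨_, rfl⟩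
  have hϖ1 : 0 ≤ ϖ ∧ ϖ ≤ 1 := by
    have h5 : ∀ p ∈ pz z, 0 ≤ 1 - (nuB (Qh h) p : ℝ) / p ∧ 1 - (nuB (Qh h) p : ℝ) / p ≤ 1 := by
      intro p hp
      have hp0 : (0 : ℝ) < p := by exact_mod_cast (mem_pz.1 hp).2.pos
      have h6 : (nuB (Qh h) p : ℝ) / p ≤ 1 := by
        rw [div_le_one hp0]
        exact_mod_cast nuB_le _ p
      have h7 : 0 ≤ (nuB (Qh h) p : ℝ) / p := by positivity
      constructor <;> linarith
    rw [hϖ]
    exact ⟨prod_nonneg fun p hp => (h5 p hp).1, prod_le_one (fun p hp => (h5 p hp).1) fun p hp => (h5 p hp).2⟩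
  have hmain : Cz z * ∑ e ∈ (Ez z).filter (fun e => e ∣ h), kap e = (Vz z)⁻¹ ^ 2 * ϖ := by
    rw [hϖ, prod_eq z h hz hh2]
    unfold Cz
    ring
  rw [mul_assoc, hmain]
  obtain ⟨V, hV⟩ : ∃ V : ℝ, V = (Vz z)⁻¹ := ⟨_, rfl⟩
  have hV0 : 0 ≤ V := by rw [hV]; exact inv_nonneg.2 (Vz_pos z).le
  rw [← hV] at kV ⊢
  have hV2 : V ^ 2 ≤ L ^ 2 := pow_le_pow_left₀ hV0 kV 2
  -- the counts
  have hcnt : ∀ N : ℕ, N0 + 16 ≤ N → X ≤ 16 * N → N ≤ X →
      |((((Icc 1 N).filter (fun n : ℕ => ∀ p ∈ pz z, ¬ Qh h p n)).card : ℕ) : ℝ) - N * ϖ| ≤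
        N * (2 ^ (U + 3) / L ^ (U + 3)) := by
    intro N hN hXN hNX
    have hNr : (16 : ℝ) ≤ N := by exact_mod_cast (by omega : 16 ≤ N)
    have hNX' : (X : ℝ) ≤ 16 * N := by exact_mod_cast hXN
    have hlN : L ≤ 2 * Real.log N := by
      rw [hL, ← Real.log_rpow (by linarith)]
      apply Real.log_le_log hX0
      rw [show (2 : ℝ) = ((2 : ℕ) : ℝ) by norm_num, Real.rpow_natCast]
      nlinarith
    have hlN2 : 2 ≤ Real.log N := by linarith
    have hNl : 0 < Real.log N := by linarith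
    have h5 := hN0 N (by omega) z (by omega) (by
      refine hzE.trans ?_
      calc L ^ E ≤ (2 * Real.log N) ^ E := pow_le_pow_left₀ hL0.le hlN E
        _ ≤ (Real.log N ^ 2) ^ E := by
            apply pow_le_pow_left₀ (by linarith)
            nlinarith
        _ = Real.log N ^ (2 * E) := by rw [← pow_mul]) (Qh h) (Qh_per h)
    rw [← hϖ] at h5
    have h6 : (N : ℝ) / Real.log N ^ (U + 3) ≤ N * (2 ^ (U + 3) / L ^ (U + 3)) := by
      rw [← mul_div_assoc, div_le_div_iff₀ (by positivity) (by positivity)]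
      have h7 : L ^ (U + 3) ≤ 2 ^ (U + 3) * Real.log N ^ (U + 3) := by
        rw [← mul_pow]
        exact pow_le_pow_left₀ hL0.le hlN _
      calc (N : ℝ) * L ^ (U + 3) ≤ N * (2 ^ (U + 3) * Real.log N ^ (U + 3)) :=
            mul_le_mul_of_nonneg_left h7 (by positivity)
        _ = _ := by ring
    refine le_trans ?_ (h5.trans h6)
    apply le_of_eq
    congr 2
  have hca := hcnt a (by omega) (by omega) (by omega)
  have hcb := hcnt b (by omega) (by omega) (by omega)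
  obtain ⟨Sa, hSa⟩ : ∃ Sa : ℝ, Sa = ((((Icc 1 a).filter (fun n : ℕ => ∀ p ∈ pz z, ¬ Qh h p n)).card : ℕ) : ℝ) := ⟨_, rfl⟩
  obtain ⟨Sb, hSb⟩ : ∃ Sb : ℝ, Sb = ((((Icc 1 b).filter (fun n : ℕ => ∀ p ∈ pz z, ¬ Qh h p n)).card : ℕ) : ℝ) := ⟨_, rfl⟩
  rw [← hSa] at hca ⊢
  rw [← hSb] at hcb ⊢
  have hdiff : |(b : ℝ) - a - X / 4| ≤ 2 := by
    have e1 : 4 * b ≤ X + 4 * a + 8 := by omega
    have e2 : X + 4 * a ≤ 4 * b + 8 := by omega
    have e1' : 4 * (b : ℝ) ≤ X + 4 * a + 8 := by exact_mod_cast e1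
    have e2' : (X : ℝ) + 4 * a ≤ 4 * b + 8 := by exact_mod_cast e2
    rw [abs_le]
    constructor <;> linarith
  have hsum : (a : ℝ) + b ≤ X := by exact_mod_cast (by omega : a + b ≤ X)
  have hdec : V ^ 2 * (Sb - Sa) - (X : ℝ) / 4 * (V ^ 2 * ϖ) =
      V ^ 2 * ((Sb - b * ϖ) - (Sa - a * ϖ) + ((b : ℝ) - a - X / 4) * ϖ) := by ring
  rw [hdec, abs_mul, abs_of_nonneg (by positivity : 0 ≤ V ^ 2)]
  obtain ⟨ε, hε⟩ : ∃ ε : ℝ, ε = 2 ^ (U + 3) / L ^ (U + 3) := ⟨_, rfl⟩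
  rw [← hε] at hca hcb
  have hε0 : 0 ≤ ε := by rw [hε]; positivity
  have hin : |(Sb - b * ϖ) - (Sa - a * ϖ) + ((b : ℝ) - a - X / 4) * ϖ| ≤ X * ε + 2 := by
    have e3 : |((b : ℝ) - a - X / 4) * ϖ| ≤ 2 := by
      rw [abs_mul, abs_of_nonneg hϖ1.1]
      calc |(b : ℝ) - a - X / 4| * ϖ ≤ 2 * 1 := mul_le_mul hdiff hϖ1.2 hϖ1.1 (by norm_num)
        _ = 2 := by norm_num
    calc |(Sb - b * ϖ) - (Sa - a * ϖ) + ((b : ℝ) - a - X / 4) * ϖ|
        ≤ |Sb - b * ϖ| + |Sa - a * ϖ| + |((b : ℝ) - a - X / 4) * ϖ| := by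
          refine (abs_add_le _ _).trans (add_le_add (abs_sub _ _) le_rfl)
      _ ≤ b * ε + a * ε + 2 := add_le_add (add_le_add hcb hca) e3
      _ = ((a : ℝ) + b) * ε + 2 := by ring
      _ ≤ X * ε + 2 := by
          have := mul_le_mul_of_nonneg_right hsum hε0
          linarith
  have hLU : 0 < L ^ U := by positivity
  calc V ^ 2 * |(Sb - b * ϖ) - (Sa - a * ϖ) + ((b : ℝ) - a - X / 4) * ϖ|
      ≤ L ^ 2 * (X * ε + 2) := mul_le_mul hV2 hin (abs_nonneg _) (by positivity)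
    _ = 2 ^ (U + 3) * X / L ^ (U + 1) + 2 * L ^ 2 := by
        rw [hε]
        have : L ^ (U + 3) = L ^ (U + 1) * L ^ 2 := by ring
        rw [this]
        field_simp
    _ ≤ (X / L ^ U) / 4 + (X / L ^ U) / 4 := by
        apply add_le_add
        · have e4 : L ^ (U + 1) = L ^ U * L := pow_succ _ _
          rw [e4, div_div, div_le_div_iff₀ (by positivity) (by positivity)]
          have e5 : (2 : ℝ) ^ (U + 3) * 4 ≤ L := by
            have : (2 : ℝ) ^ (U + 5) = 2 ^ (U + 3) * 4 := by ring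
            linarith
          calc 2 ^ (U + 3) * (X : ℝ) * (L ^ U * 4) = X * L ^ U * (2 ^ (U + 3) * 4) := by ring
            _ ≤ X * L ^ U * L := mul_le_mul_of_nonneg_left e5 (by positivity)
            _ = X * (L ^ U * L) := by ring
        · rw [div_div, le_div_iff₀ (by positivity)]
          have e6 : 4 * L ^ (U + 2) ≤ √(X : ℝ) := k2
          have e7 : √(X : ℝ) * √(X : ℝ) = X := Real.mul_self_sqrt hX0.le
          have e8 : 8 * L ^ 1 ≤ √(X : ℝ) := k3
          have e9 : 2 ≤ √(X : ℝ) := by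
            rw [pow_one] at e8
            linarith
          have e10 : 0 ≤ √(X : ℝ) := Real.sqrt_nonneg _
          have e11 : 0 < L ^ (U + 2) := by positivity
          calc 2 * L ^ 2 * (L ^ U * 4) = 2 * (4 * L ^ (U + 2)) := by ring
            _ ≤ √(X : ℝ) * √(X : ℝ) := mul_le_mul e9 e6 (by positivity) e10
            _ = X := e7
    _ ≤ X / L ^ U := by
        have : 0 ≤ (X : ℝ) / L ^ U := by positivity
        linarith

theorem s_COR : S_COR := by
  intro U E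
  obtain ⟨X₀, hX₀⟩ := cor_lt U E
  refine ⟨X₀, fun X z u u' hX hz hzE hu hu' hu8 hu8' hne h4 => ?_⟩
  rcases Nat.lt_or_gt_of_ne hne with hlt | hlt
  · have h1 := hX₀ X z u' u hX hz hzE hu' hu hu8' hu8 hlt (by
      rw [← neg_sub]
      exact (dvd_neg).2 h4)
    have e1 : ∑ n ∈ (Ioc (X / 2) X).filter (fun n => n % 2 = 1), ev (lamz z) (n - u) * ev (lamz z) (n - u') =
        ∑ n ∈ (Ioc (X / 2) X).filter (fun n => n % 2 = 1), ev (lamz z) (n - u') * ev (lamz z) (n - u) :=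
      sum_congr rfl fun n _ => mul_comm _ _
    have e2 : (Ez z).filter (fun e : ℕ => (e : ℤ) ∣ (u : ℤ) - u') = (Ez z).filter (fun e : ℕ => (e : ℤ) ∣ (u' : ℤ) - u) := by
      apply filter_congr
      intro e _
      rw [← neg_sub, dvd_neg]
    rw [e1, e2]
    exact h1
  · exact hX₀ X z u u' hX hz hzE hu hu' hu8 hu8' hlt h4

end Pool.Agent.L7h28.TS

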