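import Pool.Agent.L7h88.TS.Stm

/-! Project TS (helper88), part SUP: the sup norm of the primes minus their model. -/

set_option autoImplicit false

namespace Pool.Agent.L7h28.TS


open Finset
open Pool.Agent.L7h88.TS hiding lp
open Pool.Agent.H807R2.Dav
open Pool.Agent.H373R2.T7

lemma lp_nonneg (m : ℕ) : 0 ≤ Pool.Agent.L7h88.TS.lp m := by
  unfold Pool.Agent.L7h88.TS.lp
  split_ifs
  · exact Real.log_natCast_nonneg m
  · exact le_rfl

lemma lp_le_lam (m : ℕ) : Pool.Agent.L7h88.TS.lp m ≤ ArithmeticFunction.vonMangoldt m := by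
  unfold Pool.Agent.L7h88.TS.lp
  split_ifs with h
  · rw [ArithmeticFunction.vonMangoldt_apply_prime h]
  · exact ArithmeticFunction.vonMangoldt_nonneg

lemma sum_lp (N : ℕ) : ∑ m ∈ Icc 1 N, Pool.Agent.L7h88.TS.lp m = Chebyshev.theta (N : ℝ) := by
  unfold Chebyshev.theta Pool.Agent.L7h88.TS.lp
  rw [← sum_filter, Nat.floor_natCast]
  refine sum_congr ?_ fun _ _ => rfl
  ext m
  simp only [mem_filter, mem_Icc, mem_Ioc]
  constructor <;> rintro ⟨⟨h1, h2⟩, h3⟩ <;> exact ⟨⟨by omega, by omega⟩, h3⟩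

theorem s_SUP : S_SUP := by
  intro U
  obtain ⟨B, hB⟩ := sup_diff (U + 1)
  refine ⟨B, fun E => ?_⟩
  obtain ⟨m1, h1⟩ := hB E
  obtain ⟨m2, h2⟩ := ev_log' (U + 2) 2
  obtain ⟨m3, h3⟩ := ev_L' 2
  refine ⟨m1 + m2 + m3 + 3, fun N hN z hz1 hz2 α => ?_⟩
  have k1 := h1 N (by omega) z hz1 hz2 α
  have k2 := h2 N (by omega)
  have k3 := h3 N (by omega)
  have hN1 : (1 : ℝ) ≤ N := by exact_mod_cast (by omega : 1 ≤ N)
  have hL : 0 < Real.log N := by linarith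
  have e1 : ∑ m ∈ Icc 1 N, ((gz z m : ℝ) : ℂ) * ee ((m : ℝ) * α) =
      ∑ n ∈ Icc 1 N, ((ArithmeticFunction.vonMangoldt n - lamz z n : ℝ) : ℂ) * ee ((n : ℝ) * α) -
      ∑ n ∈ Icc 1 N, ((ArithmeticFunction.vonMangoldt n - Pool.Agent.L7h88.TS.lp n : ℝ) : ℂ) * ee ((n : ℝ) * α) := by
    rw [← sum_sub_distrib]
    refine sum_congr rfl fun m _ => ?_
    unfold gz
    push_cast
    ring
  have e2 : ‖∑ n ∈ Icc 1 N, ((ArithmeticFunction.vonMangoldt n - Pool.Agent.L7h88.TS.lp n : ℝ) : ℂ) * ee ((n : ℝ) * α)‖ ≤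
      2 * √(N : ℝ) * Real.log N := by
    refine (norm_sum_le _ _).trans ?_
    have e3 : ∀ n ∈ Icc 1 N, ‖((ArithmeticFunction.vonMangoldt n - Pool.Agent.L7h88.TS.lp n : ℝ) : ℂ) * ee ((n : ℝ) * α)‖ =
        ArithmeticFunction.vonMangoldt n - Pool.Agent.L7h88.TS.lp n := by
      intro n _
      rw [norm_mul, norm_ee, mul_one, Complex.norm_real, Real.norm_eq_abs, abs_of_nonneg]
      linarith [lp_le_lam n]
    rw [sum_congr rfl e3, sum_sub_distrib, sum_lp]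
    have e4 : ∑ n ∈ Icc 1 N, (ArithmeticFunction.vonMangoldt n : ℝ) = Chebyshev.psi (N : ℝ) := lam1_eq N
    rw [e4]
    exact Chebyshev.psi_sub_theta_le hN1
  rw [e1]
  refine (norm_sub_le _ _).trans ((add_le_add k1 e2).trans ?_)
  have hs : √(N : ℝ) * √(N : ℝ) = N := Real.mul_self_sqrt (by linarith)
  have hs0 : 0 ≤ √(N : ℝ) := Real.sqrt_nonneg _
  have hP : 0 < Real.log N ^ (U + 1) := by positivity
  have hP0 : 0 < Real.log N ^ U := by positivity
  have e5 : 2 * √(N : ℝ) * Real.log N ≤ N / Real.log N ^ (U + 1) := by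
    rw [le_div_iff₀ hP]
    calc 2 * √(N : ℝ) * Real.log N * Real.log N ^ (U + 1) = √(N : ℝ) * (2 * Real.log N ^ (U + 2)) := by ring
      _ ≤ √(N : ℝ) * √(N : ℝ) := mul_le_mul_of_nonneg_left k2 hs0
      _ = N := hs
  have e6 : 2 * (N / Real.log N ^ (U + 1)) ≤ N / Real.log N ^ U := by
    rw [pow_succ, ← div_div, ← mul_div_assoc, div_le_iff₀ hL]
    have : 0 ≤ (N : ℝ) / Real.log N ^ U := by positivity
    nlinarith
  linarith

end Pool.Agent.L7h28.TS
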