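import Pool.Agent.L7h28.TS.Ac
import Pool.Agent.L7h28.TS.Sup

/-! Project TS (helper88), part GOLD: sums of two primes, on average, with a congruence condition. -/

set_option autoImplicit false

namespace Pool.Agent.L7h28.TS


open Finset
open Pool.Agent.L7h88.TS hiding lp
open Pool.Agent.H807R2.Dav
open Pool.Agent.H373R2.T7

/-- a convolution with a function whose exponential sum is small -/
lemma conv_bound (N : ℕ) (F : Finset ℕ) (f g : ℕ → ℝ) (M : ℝ) (hF : ∀ p ∈ F, p ≤ N)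
    (hM : ∀ α : ℝ, ‖∑ m ∈ Icc 1 N, ((g m : ℝ) : ℂ) * ee ((m : ℝ) * α)‖ ≤ M) (T : Finset ℕ)
    (hT : ∀ w ∈ T, w ≤ N ∧ ∀ p ∈ F, p < w) :
    ∑ w ∈ T, (∑ p ∈ F, f p * g (w - p)) ^ 2 ≤ M ^ 2 * ∑ p ∈ F, f p ^ 2 := by
  obtain ⟨Q, hQ⟩ : ∃ Q : ℕ, Q = 2 * N + 1 := ⟨_, rfl⟩
  have hQ0 : 0 < Q := by omega
  have hQR : (0 : ℝ) < Q := by exact_mod_cast hQ0
  obtain ⟨g', hg'⟩ : ∃ g' : ℤ → ℝ, ∀ j, g' j = if 1 ≤ j ∧ j ≤ N then g j.toNat else 0 := ⟨_, fun _ => rfl⟩
  obtain ⟨c, hc⟩ : ∃ c : ℤ → ℝ, ∀ h, c h = ∑ p ∈ F, f p * g' (h - p) := ⟨_, fun _ => rfl⟩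
  have hM0 : 0 ≤ M := (norm_nonneg _).trans (hM 0)
  have h1 : ∀ w ∈ T, ∑ p ∈ F, f p * g (w - p) = c (w : ℤ) := by
    intro w hw
    rw [hc]
    refine sum_congr rfl fun p hp => ?_
    have hwp := (hT w hw).2 p hp
    have hwN := (hT w hw).1
    rw [hg', if_pos (by omega)]
    congr 2
    omega
  have h2 : ∑ w ∈ T, (∑ p ∈ F, f p * g (w - p)) ^ 2 ≤ ∑ h ∈ Icc (0 : ℤ) (2 * N), c h ^ 2 := by
    rw [sum_congr rfl fun w hw => by rw [h1 w hw]]
    have h3 : ∑ w ∈ T, c (w : ℤ) ^ 2 = ∑ h ∈ T.image (fun w : ℕ => (w : ℤ)), c h ^ 2 := by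
      rw [sum_image (fun a _ b _ hab => by exact_mod_cast hab)]
    rw [h3]
    apply sum_le_sum_of_subset_of_nonneg
    · intro h hh
      rw [mem_image] at hh
      obtain ⟨w, hw, rfl⟩ := hh
      have := (hT w hw).1
      rw [mem_Icc]
      constructor <;> omega
    · intro h _ _
      positivity
  refine h2.trans ?_
  have hprod : ∀ α : ℝ, ∑ h ∈ Icc (0 : ℤ) (2 * N), ((c h : ℝ) : ℂ) * ee ((h : ℝ) * α) =
      (∑ p ∈ F, ((f p : ℝ) : ℂ) * ee ((p : ℝ) * α)) * ∑ m ∈ Icc 1 N, ((g m : ℝ) : ℂ) * ee ((m : ℝ) * α) := by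
    intro α
    rw [sum_mul]
    have h3 : ∀ h ∈ Icc (0 : ℤ) (2 * N), ((c h : ℝ) : ℂ) * ee ((h : ℝ) * α) =
        ∑ p ∈ F, ((f p : ℝ) : ℂ) * ((g' (h - p) : ℝ) : ℂ) * ee ((h : ℝ) * α) := by
      intro h _
      rw [hc]
      push_cast
      rw [sum_mul]
    rw [sum_congr rfl h3, sum_comm]
    refine sum_congr rfl fun p hp => ?_
    have hpN := hF p hp
    have h4 : ∑ h ∈ Icc (0 : ℤ) (2 * N), ((f p : ℝ) : ℂ) * ((g' (h - p) : ℝ) : ℂ) * ee ((h : ℝ) * α) =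
        ∑ h ∈ (Icc 1 N).image (fun m : ℕ => ((m : ℤ) + p)), ((f p : ℝ) : ℂ) * ((g' (h - p) : ℝ) : ℂ) * ee ((h : ℝ) * α) := by
      symm
      apply sum_subset
      · intro h hh
        rw [mem_image] at hh
        obtain ⟨m, hm, rfl⟩ := hh
        rw [mem_Icc] at hm ⊢
        constructor <;> omega
      · intro h _ hh
        have h5 : g' (h - p) = 0 := by
          rw [hg', if_neg]
          intro h6
          apply hh
          rw [mem_image]
          refine ⟨(h - p).toNat, ?_, ?_⟩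
          · rw [mem_Icc]
            constructor <;> omega
          · omega
        rw [h5, Complex.ofReal_zero, mul_zero, zero_mul]
    rw [h4, sum_image (fun a _ b _ hab => by simpa using hab), mul_sum]
    refine sum_congr rfl fun m hm => ?_
    rw [mem_Icc] at hm
    have h5 : g' ((m : ℤ) + p - p) = g m := by
      rw [hg', if_pos (by omega)]
      congr 1
      omega
    rw [h5]
    have h6 : ee ((((m : ℤ) + p : ℤ) : ℝ) * α) = ee ((p : ℝ) * α) * ee ((m : ℝ) * α) := by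
      rw [← ee_add]
      congr 1
      push_cast
      ring
    rw [h6]
    ring
  have hp1 := dparseval Q hQ0 (Icc (0 : ℤ) (2 * N)) (fun h => ((c h : ℝ) : ℂ)) (by
    intro a ha b hb hab
    rw [mem_Icc] at ha hb
    have h1 := Int.eq_zero_of_abs_lt_dvd hab (by rw [abs_lt]; constructor <;> omega)
    omega)
  have hp2 := dparseval Q hQ0 (F.image (fun p : ℕ => (p : ℤ))) (fun m => ((f m.toNat : ℝ) : ℂ)) (by
    intro a ha b hb hab
    rw [mem_image] at ha hb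
    obtain ⟨a', ha', rfl⟩ := ha
    obtain ⟨b', hb', rfl⟩ := hb
    have := hF a' ha'
    have := hF b' hb'
    have h1 := Int.eq_zero_of_abs_lt_dvd hab (by rw [abs_lt]; constructor <;> omega)
    omega)
  have himg : ∀ (G : ℤ → ℂ), ∑ h ∈ F.image (fun p : ℕ => (p : ℤ)), G h = ∑ p ∈ F, G (p : ℤ) := fun G =>
    sum_image (fun a _ b _ hab => by exact_mod_cast hab)
  have himg' : ∀ (G : ℤ → ℝ), ∑ h ∈ F.image (fun p : ℕ => (p : ℤ)), G h = ∑ p ∈ F, G (p : ℤ) := fun G =>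
    sum_image (fun a _ b _ hab => by exact_mod_cast hab)
  simp only [himg, himg', Complex.norm_real, Real.norm_eq_abs, sq_abs, Int.toNat_natCast, Int.cast_natCast] at hp1 hp2
  have h7 : (Q : ℝ) * ∑ h ∈ Icc (0 : ℤ) (2 * N), c h ^ 2 ≤ (Q : ℝ) * (M ^ 2 * ∑ p ∈ F, f p ^ 2) := by
    rw [← hp1, mul_left_comm, ← hp2, mul_sum]
    refine sum_le_sum fun k _ => ?_
    rw [hprod, norm_mul, mul_pow, mul_comm]
    exact mul_le_mul_of_nonneg_right (pow_le_pow_left₀ (norm_nonneg _) (hM _) 2) (by positivity)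
  exact le_of_mul_le_mul_left h7 hQR

lemma lp_le {m N : ℕ} (hm : m ≤ N) : Pool.Agent.L7h88.TS.lp m ≤ Real.log N := by
  unfold Pool.Agent.L7h88.TS.lp
  split_ifs with h
  · exact Real.log_le_log (by exact_mod_cast h.pos) (by exact_mod_cast hm)
  · exact Real.log_natCast_nonneg N

theorem s_GOLD (hS : S_SUP) : ∀ D, S_GOLD (Rg D) := by
  intro D A
  obtain ⟨U, hU⟩ : ∃ U : ℕ, U = A + D + 2 := ⟨_, rfl⟩
  obtain ⟨B, hB⟩ := hS U
  refine ⟨B, fun E => ?_⟩
  obtain ⟨N0, hN0⟩ := hB (2 * E)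
  obtain ⟨m1, h1⟩ := ev_L' (16 * 9 ^ U + 20)
  refine ⟨4 * (N0 + 1) ^ 2 + m1 + 3, fun X W P z e hX hPar hR hz1 hz2 he1 _ => ?_⟩
  have hP16 := hPar.h16
  have hP4 := hPar.h4
  have hP8 := hPar.h8
  -- sizes
  have hXW : X ≤ 4 * W ^ 2 := by nlinarith
  have hWN : N0 + 1 ≤ W := by
    by_contra h
    push Not at h
    have h2 : W ^ 2 ≤ (N0 + 1) ^ 2 := Nat.pow_le_pow_left h.le 2
    omega
  have hP1 : 1 ≤ P := by
    rcases Nat.eq_zero_or_pos P with h | h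
    · subst h
      simp at hP16
      omega
    · exact h
  have hW1 : 1 ≤ W := by omega
  have hWX : W ≤ X := by nlinarith
  have hk1 := h1 X (by omega)
  have hL0 : (0 : ℝ) < 9 ^ U := by positivity
  have hX0 : (0 : ℝ) < X := by exact_mod_cast (by omega : 0 < X)
  have hW0 : (0 : ℝ) < W := by exact_mod_cast (by omega : 0 < W)
  have hP0 : (0 : ℝ) < P := by exact_mod_cast (by omega : 0 < P)
  obtain ⟨L, hL⟩ : ∃ L : ℝ, L = Real.log X := ⟨_, rfl⟩
  obtain ⟨l, hl⟩ : ∃ l : ℝ, l = Real.log W := ⟨_, rfl⟩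
  rw [← hL] at hk1 hz1 hz2
  have hlL : l ≤ L := by
    rw [hl, hL]
    exact Real.log_le_log hW0 (by exact_mod_cast hWX)
  have hLl : L ≤ 2 * l + 2 := by
    have h2 : Real.log X ≤ Real.log (4 * (W : ℝ) ^ 2) :=
      Real.log_le_log hX0 (by exact_mod_cast hXW)
    rw [Real.log_mul (by norm_num) (by positivity), Real.log_pow] at h2
    have h3 : Real.log 4 ≤ 2 := by
      have h4 : Real.log 4 = 2 * Real.log 2 := by
        rw [show (4 : ℝ) = 2 ^ 2 by norm_num, Real.log_pow]; norm_num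
      have := Real.log_two_lt_d9
      linarith
    rw [hL, hl]
    push_cast at h2
    linarith
  have hl9 : 9 ≤ l := by nlinarith
  have hL3l : L ≤ 3 * l := by linarith
  have hLpos : 0 < L := by linarith
  have hlpos : 0 < l := by linarith
  -- the sup norm
  have hsup := hN0 W (by omega) z (by
      rw [← hl]
      exact (pow_le_pow_left₀ hlpos.le hlL B).trans hz1) (by
      rw [← hl]
      refine hz2.trans ?_
      rw [pow_mul]
      apply pow_le_pow_left₀ hLpos.le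
      nlinarith)
  rw [← hl] at hsup
  have hMM : ((W : ℝ) / l ^ U) ^ 2 ≤ 9 ^ U * W ^ 2 / L ^ (2 * U) := by
    rw [div_pow, ← pow_mul, mul_comm U 2, div_le_div_iff₀ (by positivity) (by positivity)]
    have h2 : L ^ (2 * U) ≤ 9 ^ U * l ^ (2 * U) := by
      calc L ^ (2 * U) ≤ (3 * l) ^ (2 * U) := pow_le_pow_left₀ hLpos.le hL3l _
        _ = _ := by rw [mul_pow, pow_mul 3 2 U]; norm_num
    nlinarith [mul_le_mul_of_nonneg_left h2 (by positivity : (0 : ℝ) ≤ (W : ℝ) ^ 2)]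
  have hstep : ∀ b ∈ range e, ∑ w ∈ Ioc (W / 2) W,
      (∑ p ∈ (Ioc (P / 2) P).filter (fun p => p % e = b), Pool.Agent.L7h88.TS.lp p * gz z (w - p)) ^ 2 ≤
      ((W : ℝ) / l ^ U) ^ 2 * ∑ p ∈ (Ioc (P / 2) P).filter (fun p => p % e = b), Pool.Agent.L7h88.TS.lp p ^ 2 := by
    intro b _
    apply conv_bound W _ Pool.Agent.L7h88.TS.lp (gz z) _ _ hsup
    · intro w hw
      rw [mem_Ioc] at hw
      refine ⟨hw.2, fun p hp => ?_⟩
      rw [mem_filter, mem_Ioc] at hp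
      omega
    · intro p hp
      rw [mem_filter, mem_Ioc] at hp
      omega
  refine (sum_le_sum hstep).trans ?_
  rw [← mul_sum]
  have hfib : ∑ b ∈ range e, ∑ p ∈ (Ioc (P / 2) P).filter (fun p => p % e = b), Pool.Agent.L7h88.TS.lp p ^ 2 =
      ∑ p ∈ Ioc (P / 2) P, Pool.Agent.L7h88.TS.lp p ^ 2 :=
    sum_fiberwise_of_maps_to (fun p _ => mem_range.2 (Nat.mod_lt _ (by omega))) _
  rw [hfib]
  have hlp : ∑ p ∈ Ioc (P / 2) P, Pool.Agent.L7h88.TS.lp p ^ 2 ≤ P * L ^ 2 := by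
    calc ∑ p ∈ Ioc (P / 2) P, Pool.Agent.L7h88.TS.lp p ^ 2 ≤ ∑ p ∈ Ioc (P / 2) P, L ^ 2 := by
          refine sum_le_sum fun p hp => ?_
          rw [mem_Ioc] at hp
          apply pow_le_pow_left₀ (lp_nonneg p)
          rw [hL]
          exact lp_le (by omega)
      _ = ((Ioc (P / 2) P).card : ℝ) * L ^ 2 := by rw [sum_const, nsmul_eq_mul]
      _ ≤ P * L ^ 2 := by
          apply mul_le_mul_of_nonneg_right _ (by positivity)
          rw [Nat.card_Ioc]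
          exact_mod_cast Nat.sub_le _ _
  -- the range
  have hWP : (W : ℝ) ≤ 16 * L ^ (2 * D) * P := by
    have h2 : (W : ℝ) ≤ √(X : ℝ) * L ^ D := by rw [hL]; exact hR
    have h3 : (W : ℝ) ^ 2 ≤ X * L ^ (2 * D) := by
      calc (W : ℝ) ^ 2 ≤ (√(X : ℝ) * L ^ D) ^ 2 := pow_le_pow_left₀ hW0.le h2 2
        _ = _ := by rw [mul_pow, Real.sq_sqrt hX0.le, ← pow_mul, mul_comm D 2]
    have h4 : (X : ℝ) ≤ 16 * (W * P) := by exact_mod_cast hP16
    have h5 : (W : ℝ) * X ≤ (16 * L ^ (2 * D) * P) * X := by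
      calc (W : ℝ) * X ≤ W * (16 * (W * P)) := mul_le_mul_of_nonneg_left h4 hW0.le
        _ = 16 * P * W ^ 2 := by ring
        _ ≤ 16 * P * (X * L ^ (2 * D)) := mul_le_mul_of_nonneg_left h3 (by positivity)
        _ = _ := by ring
    exact le_of_mul_le_mul_right h5 hX0
  calc ((W : ℝ) / l ^ U) ^ 2 * ∑ p ∈ Ioc (P / 2) P, Pool.Agent.L7h88.TS.lp p ^ 2
      ≤ (9 ^ U * W ^ 2 / L ^ (2 * U)) * (P * L ^ 2) :=
        mul_le_mul hMM hlp (sum_nonneg fun _ _ => by positivity) (by positivity)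
    _ ≤ (P : ℝ) ^ 2 * W / L ^ A := by
        rw [div_mul_eq_mul_div, div_le_div_iff₀ (by positivity) (by positivity)]
        have h2 : 2 * U = A + (2 + (A + 2 * D + 2)) := by omega
        have h3 : (16 : ℝ) * 9 ^ U ≤ L ^ 2 := by nlinarith
        have h6 : (1 : ℝ) ≤ L ^ A := one_le_pow₀ (by linarith)
        have h4 : (W : ℝ) * (9 ^ U * L ^ (A + 2)) ≤ P * L ^ (2 * U) := by
          calc (W : ℝ) * (9 ^ U * L ^ (A + 2)) ≤ (16 * L ^ (2 * D) * P) * (9 ^ U * L ^ (A + 2)) :=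
                mul_le_mul_of_nonneg_right hWP (by positivity)
            _ = (16 * 9 ^ U) * (P * (L ^ (2 * D) * L ^ (A + 2))) := by ring
            _ ≤ L ^ 2 * (P * (L ^ (2 * D) * L ^ (A + 2))) := mul_le_mul_of_nonneg_right h3 (by positivity)
            _ = 1 * (P * (L ^ (2 * D) * L ^ (A + 2) * L ^ 2)) := by ring
            _ ≤ L ^ A * (P * (L ^ (2 * D) * L ^ (A + 2) * L ^ 2)) :=
                mul_le_mul_of_nonneg_right h6 (by positivity)
            _ = P * L ^ (2 * U) := by rw [h2]; ring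
        calc 9 ^ U * (W : ℝ) ^ 2 * (P * L ^ 2) * L ^ A = (W * P) * (W * (9 ^ U * L ^ (A + 2))) := by ring
          _ ≤ (W * P) * (P * L ^ (2 * U)) := mul_le_mul_of_nonneg_left h4 (by positivity)
          _ = _ := by ring
    _ = _ := by rw [hL]

end Pool.Agent.L7h28.TS
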