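import Pool.Agent.L7h88.TS.Stm

/-! Project TS (helper88), part KAP: the tail of the singular series. -/

set_option autoImplicit false

namespace Pool.Agent.L7h28.TS

open Finset
open Pool.Agent.L7h88.TS hiding lp
open Pool.Agent.H373R2.T7

/-- the odd primes up to `z` -/
lemma mem_odd {z l : ℕ} (h : l ∈ (pz z).erase 2) : l.Prime ∧ 3 ≤ l := by
  rw [mem_erase, mem_pz] at h
  have := h.2.2.two_le
  exact ⟨h.2.2, by omega⟩

lemma kap_nonneg_of {e z : ℕ} (h : e ∈ Ez z) : 0 ≤ kap e := by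
  unfold kap
  refine prod_nonneg fun l hl => ?_
  have h1 : l ∈ (pz z).erase 2 := by
    unfold Ez at h
    rw [Nat.mem_divisors] at h
    have h2 := Nat.primeFactors_mono h.1 h.2 hl
    rwa [Nat.primeFactors_prod (fun p hp => (mem_odd hp).1)] at h2
  have h3 : (3 : ℝ) ≤ l := by exact_mod_cast (mem_odd h1).2
  have : (0 : ℝ) < (l : ℝ) - 2 := by linarith
  positivity

/-- the multiplicative function -/
noncomputable def kf : ArithmeticFunction ℝ :=
  ⟨fun e => if e = 0 then 0 else kap e * (e.divisors.card : ℝ) / √(e : ℝ), by simp⟩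

lemma kf_apply (e : ℕ) (he : e ≠ 0) : kf e = kap e * (e.divisors.card : ℝ) / √(e : ℝ) := by
  show (if e = 0 then (0 : ℝ) else kap e * (e.divisors.card : ℝ) / √(e : ℝ)) = _
  rw [if_neg he]

lemma kf_mult : kf.IsMultiplicative := by
  rw [ArithmeticFunction.IsMultiplicative.iff_ne_zero]
  constructor
  · rw [kf_apply 1 one_ne_zero]
    simp [kap]
  · intro m n hm hn hmn
    rw [kf_apply _ (mul_ne_zero hm hn), kf_apply m hm, kf_apply n hn]
    have h1 : kap (m * n) = kap m * kap n := by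
      unfold kap
      rw [Nat.Coprime.primeFactors_mul hmn, prod_union hmn.disjoint_primeFactors]
    have h2 : √((m * n : ℕ) : ℝ) = √(m : ℝ) * √(n : ℝ) := by
      push_cast
      rw [Real.sqrt_mul (Nat.cast_nonneg _)]
    rw [h1, h2, Nat.Coprime.card_divisors_mul hmn]
    push_cast
    ring

lemma kf_prime (l : ℕ) (hl : l.Prime) (h3 : 3 ≤ l) : 1 + kf l ≤ Real.exp (6 * (1 / (l : ℝ) ^ (3 / 2 : ℝ))) := by
  have hl3 : (3 : ℝ) ≤ l := by exact_mod_cast h3
  have hl0 : (0 : ℝ) < l := by linarith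
  have h1 : kf l = 2 / (((l : ℝ) - 2) * √(l : ℝ)) := by
    rw [kf_apply l hl.ne_zero, hl.divisors, card_pair hl.one_lt.ne]
    unfold kap
    rw [hl.primeFactors, prod_singleton]
    push_cast
    rw [div_mul_eq_mul_div, div_div]
    ring
  have h2 : (l : ℝ) ^ (3 / 2 : ℝ) = l * √(l : ℝ) := by
    rw [Real.sqrt_eq_rpow, ← Real.rpow_one_add' hl0.le (by norm_num)]
    norm_num
  have hs : 0 < √(l : ℝ) := Real.sqrt_pos.2 hl0
  have h4 : kf l ≤ 6 * (1 / (l : ℝ) ^ (3 / 2 : ℝ)) := by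
    have hl2 : (0 : ℝ) < (l : ℝ) - 2 := by linarith
    rw [h1, h2, mul_one_div, div_le_div_iff₀ (by positivity) (by positivity)]
    have h5 : 2 * (l : ℝ) ≤ 6 * ((l : ℝ) - 2) + 0 := by linarith
    calc 2 * ((l : ℝ) * √(l : ℝ)) = (2 * (l : ℝ)) * √(l : ℝ) := by ring
      _ ≤ (6 * ((l : ℝ) - 2) + 0) * √(l : ℝ) := mul_le_mul_of_nonneg_right h5 hs.le
      _ = _ := by ring
  have := Real.add_one_le_exp (6 * (1 / (l : ℝ) ^ (3 / 2 : ℝ)))
  linarith

lemma kf_sum (z : ℕ) : ∑ e ∈ Ez z, kf e ≤ Real.exp (6 * ∑' n : ℕ, 1 / (n : ℝ) ^ (3 / 2 : ℝ)) := by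
  have hsum : Summable (fun n : ℕ => 1 / (n : ℝ) ^ (3 / 2 : ℝ)) :=
    Real.summable_one_div_nat_rpow.2 (by norm_num)
  unfold Ez
  have hpr : ∀ p ∈ (pz z).erase 2, p.Prime := fun p hp => (mem_odd hp).1
  have hsq : Squarefree (∏ l ∈ (pz z).erase 2, l) := by
    refine Finset.squarefree_prod_of_pairwise_isCoprime (fun p hp q hq hpq => ?_) (fun p hp => (hpr p hp).prime.squarefree)
    exact Nat.coprime_iff_isRelPrime.1 ((Nat.coprime_primes (hpr p hp) (hpr q hq)).2 hpq)
  rw [← kf_mult.prodPrimeFactors_one_add_of_squarefree hsq, Nat.primeFactors_prod hpr]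
  calc ∏ l ∈ (pz z).erase 2, (1 + kf l)
      ≤ ∏ l ∈ (pz z).erase 2, Real.exp (6 * (1 / (l : ℝ) ^ (3 / 2 : ℝ))) := by
        refine prod_le_prod (fun l hl => ?_) fun l hl => kf_prime l (mem_odd hl).1 (mem_odd hl).2
        have h1 := (mem_odd hl).2
        have h3 : (3 : ℝ) ≤ l := by exact_mod_cast h1
        have h2 : 0 ≤ kf l := by
          rw [kf_apply l (by omega)]
          unfold kap
          rw [(mem_odd hl).1.primeFactors, prod_singleton]
          have : (0 : ℝ) < (l : ℝ) - 2 := by linarith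
          positivity
        linarith
    _ = Real.exp (6 * ∑ l ∈ (pz z).erase 2, 1 / (l : ℝ) ^ (3 / 2 : ℝ)) := by
        rw [← Real.exp_sum, mul_sum]
    _ ≤ _ := by
        apply Real.exp_le_exp.2
        apply mul_le_mul_of_nonneg_left _ (by norm_num)
        exact hsum.sum_le_tsum _ (fun n _ => by positivity)

theorem s_KAP : S_KAP := by
  refine ⟨?_, ?_⟩
  · intro z hz
    have h2 : 2 ∈ pz z := mem_pz.2 ⟨hz, Nat.prime_two⟩
    have hV : Vz z = (1 / 2) * ∏ l ∈ (pz z).erase 2, (1 - 1 / (l : ℝ)) := by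
      unfold Vz
      rw [← mul_prod_erase _ _ h2]
      norm_num
    have hprod : Cz z = 2 * ∏ l ∈ (pz z).erase 2, ((1 - 2 / (l : ℝ)) / (1 - 1 / (l : ℝ)) ^ 2) := by
      unfold Cz
      rw [prod_div_distrib, prod_pow, hV]
      rw [mul_inv, mul_pow, inv_pow, inv_pow]
      ring
    have hfac : ∀ l ∈ (pz z).erase 2, 0 ≤ (1 - 2 / (l : ℝ)) / (1 - 1 / (l : ℝ)) ^ 2 ∧
        (1 - 2 / (l : ℝ)) / (1 - 1 / (l : ℝ)) ^ 2 ≤ 1 := by
      intro l hl
      have h3 : (3 : ℝ) ≤ l := by exact_mod_cast (mem_odd hl).2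
      have hl0 : (0 : ℝ) < l := by linarith
      have e1 : 2 / (l : ℝ) ≤ 2 / 3 := by
        apply div_le_div_of_nonneg_left _ _ h3 <;> norm_num
      have e2 : 1 / (l : ℝ) ≤ 1 / 3 := by
        apply div_le_div_of_nonneg_left _ _ h3 <;> norm_num
      constructor
      · apply div_nonneg
        · linarith
        · positivity
      · have e4 : 0 < 1 - 1 / (l : ℝ) := by linarith
        rw [div_le_one (by positivity)]
        have e3 : 2 / (l : ℝ) = 2 * (1 / (l : ℝ)) := by ring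
        nlinarith [sq_nonneg (1 / (l : ℝ))]
    rw [hprod]
    constructor
    · exact mul_nonneg (by norm_num) (prod_nonneg fun l hl => (hfac l hl).1)
    · have := prod_le_one (fun l hl => (hfac l hl).1) (fun l hl => (hfac l hl).2)
      linarith
  · refine ⟨Real.exp (6 * ∑' n : ℕ, 1 / (n : ℝ) ^ (3 / 2 : ℝ)), Real.exp_pos _, fun z E₀ hE => ?_⟩
    have hE0 : 0 < √E₀ := Real.sqrt_pos.2 (by linarith)
    rw [le_div_iff₀ hE0, sum_mul]
    refine le_trans ?_ (kf_sum z)
    have hpos : ∀ e ∈ Ez z, e ≠ 0 := by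
      intro e he
      unfold Ez at he
      exact (Nat.pos_of_mem_divisors he).ne'
    calc ∑ e ∈ (Ez z).filter (fun e : ℕ => E₀ < e), kap e * (e.divisors.card : ℝ) / e * √E₀
        ≤ ∑ e ∈ (Ez z).filter (fun e : ℕ => E₀ < e), kf e := by
          refine sum_le_sum fun e he => ?_
          rw [mem_filter] at he
          rw [kf_apply e (hpos e he.1)]
          have h1 : √E₀ ≤ √(e : ℝ) := Real.sqrt_le_sqrt he.2.le
          have he0 : (0 : ℝ) < e := by
            have := he.2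
            linarith
          have hse : 0 < √(e : ℝ) := Real.sqrt_pos.2 he0
          have h2 : 0 ≤ kap e * (e.divisors.card : ℝ) := mul_nonneg (kap_nonneg_of he.1) (by positivity)
          rw [div_mul_eq_mul_div, div_le_div_iff₀ he0 hse]
          have h3 : √E₀ * √(e : ℝ) ≤ e := by
            calc √E₀ * √(e : ℝ) ≤ √(e : ℝ) * √(e : ℝ) := mul_le_mul_of_nonneg_right h1 hse.le
              _ = e := Real.mul_self_sqrt he0.le
          calc kap e * (e.divisors.card : ℝ) * √E₀ * √(e : ℝ)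
              = kap e * (e.divisors.card : ℝ) * (√E₀ * √(e : ℝ)) := by ring
            _ ≤ _ := mul_le_mul_of_nonneg_left h3 h2
      _ ≤ ∑ e ∈ Ez z, kf e := by
          apply sum_le_sum_of_subset_of_nonneg (filter_subset _ _)
          intro e he _
          rw [kf_apply e (hpos e he)]
          exact div_nonneg (mul_nonneg (kap_nonneg_of he) (by positivity)) (Real.sqrt_nonneg _)

end Pool.Agent.L7h28.TS
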